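import Pool.Agent.H53.GM.Targets

/-!
Module AMG: amalgamation.
-/

set_option autoImplicit false

namespace Pool.Agent.H14.GM

open Pool.Agent.H68.BP Pool.Agent.H58.SF Pool.Agent.H53.GC Pool.Agent.H53.GR Pool.Agent.H53.GM
open Classical

section

variable {τ : Sig} {N : ℕ} {W₁ W₂ J Z : Type}

theorem ne_of_sub (hN : 1 ≤ N) {M₁ : Str τ W₁} {M₂ : Str τ W₂} {a : J → W₁} {b : J → W₂}
    (h : tp N M₁ a ⊆ tp N M₂ b) (h1 : Nonempty W₁) : Nonempty W₂ := by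
  obtain ⟨w⟩ := h1
  have h2 : ((fun _ _ => False, fun _ => none) : Str τ (Fin N) × (Fin N → Option J)) ∈
      tp N M₁ a := by
    refine ⟨?_, fun _ => w, fun l x hx => hx.elim, fun v i hi => by cases hi⟩
    rintro S - ⟨l, z, hz, -⟩
    exact hz.elim
  obtain ⟨-, f, -, -⟩ := h h2
  exact ⟨f ⟨0, hN⟩⟩

/-- the image of a structure -/
def img {W : Type} (M : Str τ W) (e : W → Z) : Str τ Z :=
  fun l z => ∃ z₁ : Fin (τ.ar l) → W, z = (fun i => e (z₁ i)) ∧ M l z₁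

/-- an amalgam -/
structure Am (N : ℕ) (M₁ : Str τ W₁) (M₂ : Str τ W₂) (a : J → W₁) (b : J → W₂) (P : Str τ Z)
    (e₁ : W₁ → Z) (e₂ : W₂ → Z) : Prop where
  pos : 1 ≤ N
  ar : ∀ l, 1 ≤ τ.ar l
  ai : Function.Injective a
  i₁ : Function.Injective e₁
  i₂ : Function.Injective e₂
  at' : ∀ l z, P l z ↔ img M₁ e₁ l z ∨ img M₂ e₂ l z
  eq : ∀ j, e₁ (a j) = e₂ (b j)
  meet : ∀ w₁ w₂, e₁ w₁ = e₂ w₂ → ∃ j, w₁ = a j ∧ w₂ = b j
  sub : tp N M₁ a ⊆ tp N M₂ b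
  ne : Nonempty Z → Nonempty W₂

variable {M₁ : Str τ W₁} {M₂ : Str τ W₂} {a : J → W₁} {b : J → W₂} {P : Str τ Z}
  {e₁ : W₁ → Z} {e₂ : W₂ → Z}

/-- the parts of the amalgam -/
def Mi (M₁ : Str τ W₁) (M₂ : Str τ W₂) (e₁ : W₁ → Z) (e₂ : W₂ → Z) (i : Bool) : Str τ Z :=
  if i then img M₁ e₁ else img M₂ e₂

/-- the ranges -/
def Bi (e₁ : W₁ → Z) (e₂ : W₂ → Z) (i : Bool) : Set Z := if i then Set.range e₁ else Set.range e₂

theorem cond1 (e₁ : W₁ → Z) (e₂ : W₂ → Z) : ∀ i j x, x ∈ Bi e₁ e₂ i → x ∈ Bi e₁ e₂ j → i ≠ j →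
    x ∈ Set.range e₂ := by
  rintro (_ | _) (_ | _) x h1 h2 h3
  · exact absurd rfl h3
  · exact h1
  · exact h2
  · exact absurd rfl h3

theorem cond2 (h : Am N M₁ M₂ a b P e₁ e₂) : ∀ (l : Fin τ.m) (z : Fin (τ.ar l) → Z), P l z →
    ∃ i, Mi M₁ M₂ e₁ e₂ i l z := by
  intro l z hz
  rcases (h.at' l z).1 hz with h1 | h1
  · exact ⟨true, h1⟩
  · exact ⟨false, h1⟩

theorem cond3 : ∀ i (l : Fin τ.m) (z : Fin (τ.ar l) → Z), Mi M₁ M₂ e₁ e₂ i l z →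
    ∀ a, z a ∈ Bi e₁ e₂ i := by
  rintro (_ | _) l z ⟨z₁, rfl, -⟩ a
  · exact ⟨z₁ a, rfl⟩
  · exact ⟨z₁ a, rfl⟩

/-- preimages under an injective map -/
theorem inv_hom {W : Type} (w0 : W) (M : Str τ W) {e : W → Z} (he : Function.Injective e)
    (D : Str τ (Fin N)) (f : Fin N → Z) (hf : IsHom D (img M e) f) :
    ∃ g : Fin N → W, IsHom D M g ∧ ∀ v w, f v = e w → g v = w := by
  have h1 : ∀ v, ∃ w', ∀ w, f v = e w → w' = w := by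
    intro v
    by_cases h : ∃ w, f v = e w
    · obtain ⟨w, hw⟩ := h
      exact ⟨w, fun w' hw' => he (hw.symm.trans hw')⟩
    · exact ⟨w0, fun w hw => absurd ⟨w, hw⟩ h⟩
  choose g hg using h1
  refine ⟨g, fun l z hz => ?_, hg⟩
  obtain ⟨z₁, h2, h3⟩ := hf l z hz
  have h4 : (fun i => g (z i)) = z₁ := by
    funext i
    exact hg (z i) (z₁ i) (congrFun h2 i)
  rw [h4]
  exact h3

/-- the extension lemma -/
theorem ext (hGLU : T_GLU) (hGL2 : T_GL2) (h : Am N M₁ M₂ a b P e₁ e₂) {J' : Type}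
    (φ : Z → W₂) (hφ : ∀ w, φ (e₂ w) = w) (D : Str τ (Fin N)) (f : Fin N → Z)
    (ρ : Fin N → Option J') (hf : IsHom D P f) (hRC : RC D ρ)
    (hρ : ∀ v, ρ v ≠ none → f v ∈ Set.range e₂) :
    ∃ g : Fin N → W₂, IsHom D M₂ g ∧ ∀ v, f v ∈ Set.range e₂ → g v = φ (f v) := by
  refine hGLU τ N Z W₂ Bool (Mi M₁ M₂ e₁ e₂) (Bi e₁ e₂) (Set.range e₂) P M₂ φ D f (cond1 e₁ e₂)
    (cond2 h) cond3 hf ?_
  rintro (_ | _)
  · refine ⟨fun v => φ (f v), ?_, fun v _ _ => rfl⟩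
    rintro l z ⟨-, z₂, h1, h2⟩
    have h3 : (fun i => φ (f (z i))) = z₂ := by
      funext i
      have h4 : f (z i) = e₂ (z₂ i) := congrFun h1 i
      rw [h4, hφ]
    rw [h3]
    exact h2
  · rcases isEmpty_or_nonempty W₁ with hW | ⟨⟨w0⟩⟩
    · refine ⟨fun v => φ (f v), ?_, fun v _ _ => rfl⟩
      rintro l z ⟨-, z₁, -, -⟩
      exact (hW.false (z₁ ⟨0, h.ar l⟩)).elim
    · have hr : ∀ v, ∃ o : Option J, (∀ j, o = some j → f v = e₁ (a j)) ∧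
          ((∃ j, f v = e₁ (a j)) → o ≠ none) := by
        intro v
        by_cases h1 : ∃ j, f v = e₁ (a j)
        · obtain ⟨j, hj⟩ := h1
          refine ⟨some j, fun j' hj' => ?_, fun _ => by simp⟩
          rw [Option.some.injEq] at hj'
          rw [← hj']
          exact hj
        · exact ⟨none, fun j hj => (by cases hj), fun h2 => absurd h2 h1⟩
      choose ρ' hρ1 hρ2 using hr
      have hRC' : RC (sub D f (Mi M₁ M₂ e₁ e₂ true)) ρ' := by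
        refine hGL2 τ N Z Bool J' J (Mi M₁ M₂ e₁ e₂) (Bi e₁ e₂) (Set.range e₂) P D f ρ h.ar
          (cond1 e₁ e₂) (cond2 h) cond3 hf hRC hρ true ρ' ?_
        rintro v ⟨w₂, h2⟩ ⟨w₁, h1⟩
        obtain ⟨j, hj, -⟩ := h.meet w₁ w₂ (h1.trans h2.symm)
        exact hρ2 v ⟨j, by rw [← hj, h1]⟩
      obtain ⟨g, hg1, hg2⟩ := inv_hom w0 M₁ h.i₁ (sub D f (Mi M₁ M₂ e₁ e₂ true)) f
        (fun l z hz => hz.2)
      have hmem : (sub D f (Mi M₁ M₂ e₁ e₂ true), ρ') ∈ tp N M₁ a :=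
        ⟨hRC', g, hg1, fun v j hj => hg2 v (a j) (hρ1 v j hj)⟩
      obtain ⟨-, g', hg'1, hg'2⟩ := h.sub hmem
      refine ⟨g', hg'1, ?_⟩
      rintro v ⟨w₂, h2⟩ ⟨w₁, h1⟩
      obtain ⟨j, hj1, hj2⟩ := h.meet w₁ w₂ (h1.trans h2.symm)
      have h3 : ρ' v ≠ none := hρ2 v ⟨j, by rw [← hj1, h1]⟩
      obtain ⟨j', hj'⟩ := Option.ne_none_iff_exists'.1 h3
      have h4 := hρ1 v j' hj'
      rw [← h1, hj1] at h4
      have h5 : j = j' := h.ai (h.i₁ h4)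
      rw [hg'2 v j' hj', ← h5, ← hj2, ← h2, hφ]

theorem phi_ex (h : Am N M₁ M₂ a b P e₁ e₂) (f : Fin N → Z) :
    ∃ φ : Z → W₂, ∀ w, φ (e₂ w) = w := by
  obtain ⟨w0⟩ := h.ne ⟨f ⟨0, h.pos⟩⟩
  have h1 : ∀ z, ∃ w', ∀ w, z = e₂ w → w' = w := by
    intro z
    by_cases h2 : ∃ w, z = e₂ w
    · obtain ⟨w, hw⟩ := h2
      exact ⟨w, fun w' hw' => h.i₂ (hw.symm.trans hw')⟩
    · exact ⟨w0, fun w hw => absurd ⟨w, hw⟩ h2⟩
  choose φ hφ using h1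
  exact ⟨φ, fun w => hφ _ w rfl⟩

theorem hom₂ (h : Am N M₁ M₂ a b P e₁ e₂) : IsHom M₂ P e₂ :=
  fun l z hz => (h.at' l _).2 (Or.inr ⟨z, rfl, hz⟩)

theorem hom₁ (h : Am N M₁ M₂ a b P e₁ e₂) : IsHom M₁ P e₁ :=
  fun l z hz => (h.at' l _).2 (Or.inl ⟨z, rfl, hz⟩)

theorem tp_am (hGLU : T_GLU) (hGL2 : T_GL2) (hTPB : T_TPB) (h : Am N M₁ M₂ a b P e₁ e₂)
    {J' : Type} (c : J' → W₂) : tp N P (fun j => e₂ (c j)) = tp N M₂ c := by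
  apply Set.Subset.antisymm
  · rintro q ⟨h1, f, hf, hr⟩
    obtain ⟨φ, hφ⟩ := phi_ex h f
    obtain ⟨g, hg1, hg2⟩ := ext hGLU hGL2 h φ hφ q.1 f q.2 hf h1 (by
      intro v hv
      obtain ⟨j, hj⟩ := Option.ne_none_iff_exists'.1 hv
      exact ⟨c j, (hr v j hj).symm⟩)
    refine ⟨h1, g, hg1, fun v j hj => ?_⟩
    have h2 : f v = e₂ (c j) := hr v j hj
    rw [hg2 v ⟨c j, h2.symm⟩, h2, hφ]
  · exact (hTPB τ N W₂ Z J' J' M₂ P c).1 e₂ (hom₂ h)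

theorem val_am (hGLU : T_GLU) (hGL2 : T_GL2) (hGL3 : T_GL3) {F : Set (Str τ (Fin N))}
    (hF : Hyp τ N F) (h : Am N M₁ M₂ a b P e₁ e₂) (h1 : Val F M₁) (h2 : Val F M₂) :
    Val F P := by
  intro D hD f hf
  obtain ⟨φ, hφ⟩ := phi_ex h f
  rcases hGL3 τ N Z Bool (Mi M₁ M₂ e₁ e₂) (Bi e₁ e₂) (Set.range e₂) P D f h.ar (cond1 e₁ e₂)
    (cond2 h) cond3 hf (hF.conn D hD) (hF.atom D hD) with h3 | ⟨(_ | _), h3⟩
  · obtain ⟨g, hg, -⟩ := ext hGLU hGL2 h φ hφ D f _ hf h3 (by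
      intro v hv
      by_contra h4
      simp only [if_neg h4] at hv
      exact hv rfl)
    exact h2 D hD g hg
  · obtain ⟨w0⟩ := h.ne ⟨f ⟨0, h.pos⟩⟩
    obtain ⟨g, hg, -⟩ := inv_hom w0 M₂ h.i₂ D f h3
    exact h2 D hD g hg
  · obtain ⟨l, z, hz, -⟩ := hF.atom D hD
    obtain ⟨z₁, -, -⟩ := h3 l z hz
    obtain ⟨g, hg, -⟩ := inv_hom (z₁ ⟨0, h.ar l⟩) M₁ h.i₁ D f h3
    exact h1 D hD g hg

end

theorem pf_AMG (hGLU : Pool.Agent.H53.GM.T_GLU) (hGL2 : Pool.Agent.H53.GM.T_GL2)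
    (hGL3 : Pool.Agent.H53.GM.T_GL3) (hTPB : Pool.Agent.H53.GM.T_TPB) :
    Pool.Agent.H53.GM.T_AMG := by
  intro τ N F W₁ W₂ J M₁ M₂ a b hF ha hb h1 h2 hsub
  have he : ∀ w : W₁, ∃ z : W₁ ⊕ W₂, (∀ j, w = a j → z = Sum.inr (b j)) ∧
      ((∀ j, w ≠ a j) → z = Sum.inl w) := by
    intro w
    by_cases h : ∃ j, w = a j
    · obtain ⟨j, rfl⟩ := h
      exact ⟨Sum.inr (b j), fun j' hj' => by rw [ha hj'], fun h3 => absurd rfl (h3 j)⟩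
    · exact ⟨Sum.inl w, fun j hj => absurd ⟨j, hj⟩ h, fun _ => rfl⟩
  choose e he1 he2 using he
  have hea : ∀ j, e (a j) = Sum.inr (b j) := fun j => he1 (a j) j rfl
  have hmeet : ∀ w₁ w₂, e w₁ = Sum.inr w₂ → ∃ j, w₁ = a j ∧ w₂ = b j := by
    intro w₁ w₂ h
    by_cases h3 : ∃ j, w₁ = a j
    · obtain ⟨j, hj⟩ := h3
      refine ⟨j, hj, ?_⟩
      rw [he1 w₁ j hj] at h
      exact (Sum.inr_injective h).symm
    · push Not at h3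
      rw [he2 w₁ h3] at h
      cases h
  have hei : Function.Injective e := by
    intro w w' h
    by_cases h3 : ∃ j, w = a j
    · obtain ⟨j, hj⟩ := h3
      rw [he1 w j hj] at h
      obtain ⟨j', hj1, hj2⟩ := hmeet w' (b j) h.symm
      rw [hj, hj1, hb hj2]
    · push Not at h3
      rw [he2 w h3] at h
      by_cases h4 : ∃ j, w' = a j
      · obtain ⟨j, hj⟩ := h4
        rw [he1 w' j hj] at h
        cases h
      · push Not at h4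
        rw [he2 w' h4] at h
        exact Sum.inl_injective h
  have hne : tp N M₁ a ⊆ tp N M₂ b → Nonempty (W₁ ⊕ W₂) → Nonempty W₂ := by
    rintro hs ⟨w | w⟩
    · exact ne_of_sub hF.pos hs ⟨w⟩
    · exact ⟨w⟩
  have hne' : tp N M₂ b ⊆ tp N M₁ a → Nonempty (W₁ ⊕ W₂) → Nonempty W₁ := by
    rintro hs ⟨w | w⟩
    · exact ⟨w⟩
    · exact ne_of_sub hF.pos hs ⟨w⟩
  have hAm : Am N M₁ M₂ a b (fun l z => img M₁ e l z ∨ img M₂ (Sum.inr : W₂ → W₁ ⊕ W₂) l z) e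
      Sum.inr :=
    ⟨hF.pos, fun l => (hF.ar l).1, ha, hei, Sum.inr_injective, fun l z => Iff.rfl, hea, hmeet,
      hsub, hne hsub⟩
  refine ⟨fun l z => img M₁ e l z ∨ img M₂ (Sum.inr : W₂ → W₁ ⊕ W₂) l z, e, hei, hom₁ hAm,
    hom₂ hAm, hea, val_am hGLU hGL2 hGL3 hF hAm h1 h2, fun J' c => tp_am hGLU hGL2 hTPB hAm c,
    fun heq J' c => ?_⟩
  have hAm' : Am N M₂ M₁ b a (fun l z => img M₁ e l z ∨ img M₂ (Sum.inr : W₂ → W₁ ⊕ W₂) l z)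
      Sum.inr e :=
    ⟨hF.pos, fun l => (hF.ar l).1, hb, Sum.inr_injective, hei, fun l z => Or.comm,
      fun j => (hea j).symm, fun w₂ w₁ h => by
        obtain ⟨j, hj1, hj2⟩ := hmeet w₁ w₂ h.symm
        exact ⟨j, hj2, hj1⟩, heq.symm.subset, hne' heq.symm.subset⟩
  exact tp_am hGLU hGL2 hTPB hAm' c

end Pool.Agent.H14.GM
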