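import Pool.Agent.H53.GM.Targets

/-!
Module AXG: goodness of graded systems.
-/

set_option autoImplicit false

namespace Pool.Agent.H14.GM

open Pool.Agent.H68.BP Pool.Agent.H58.SF Pool.Agent.H53.GC Pool.Agent.H53.GR Pool.Agent.H53.GM
open Classical

section

variable {τ : Sig} {N k L : ℕ} {W W' : Type}

/-- the projection of a graded system outside of the region `r` -/
def pj (r : Rg L) (pr : Kd τ N k → Ty τ N (Fin k)) (C : Sy (Fin k × Rg L) (Kd τ N k) W) :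
    Sy (Fin k) (Ty τ N (Fin k)) W :=
  ⟨fun x => (C.pt x).1, fun g t => ∃ κ, C.gd g κ ∧ ¬ (∃ v, (v, r) ∈ g.image C.pt) ∧ t = pr κ⟩

theorem dz_eq (C : Sy (Fin k × Rg L) (Kd τ N k) W) (c : Fin 6) :
    dz C c = pj (some none) (fun κ => κ.1 c) C := rfl

theorem ds_eq (C : Sy (Fin k × Rg L) (Kd τ N k) W) (d : Fin 2) :
    ds C d = pj none (fun κ => κ.2 d) C := rfl

theorem pj_hm (r : Rg L) (pr : Kd τ N k → Ty τ N (Fin k)) (C : Sy (Fin k × Rg L) (Kd τ N k) W)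
    (C' : Sy (Fin k × Rg L) (Kd τ N k) W') (f : W → W') (h : Hm C C' f) :
    Hm (pj r pr C) (pj r pr C') f := by
  rintro g t ⟨κ, h1, h2, rfl⟩
  obtain ⟨h3, h4⟩ := h g κ h1
  have h5 : (g.image f).image C'.pt = g.image C.pt := by
    rw [Finset.image_image]
    exact Finset.image_congr fun x hx => h4 x hx
  refine ⟨⟨κ, h3, ?_, rfl⟩, fun x hx => congrArg Prod.fst (h4 x hx)⟩
  rw [h5]
  exact h2

/-- the elements of `U` outside of the region `r` -/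
def ot (r : Rg L) (C : Sy (Fin k × Rg L) (Kd τ N k) W) (U : Set W) : Set W :=
  {x | x ∈ U ∧ (C.pt x).2 ≠ r}

theorem pj_res_hm (r : Rg L) (pr : Kd τ N k → Ty τ N (Fin k))
    (C : Sy (Fin k × Rg L) (Kd τ N k) W) (U V : Set W) (hUV : V ⊆ U) :
    Hm ((pj r pr C).res V) (pj r pr (C.res U)) id := by
  rintro g t ⟨⟨κ, h1, h2, rfl⟩, h3⟩
  rw [Finset.image_id]
  exact ⟨⟨κ, ⟨h1, fun x hx => hUV (h3 x hx)⟩, h2, rfl⟩, fun x _ => rfl⟩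

variable {F : Set (Str τ (Fin N))} {I : Finset (Fin k)} {a₀ : Ty τ N (Fin k)}

theorem pj_g2 (hb : Axs (bC F I) N (Gd0 F I)) (r : Rg L) (pr : Kd τ N k → Ty τ N (Fin k))
    [Finite W] (C : Sy (Fin k × Rg L) (Kd τ N k) W) (hC : IsSys (bC F I) (pj r pr C))
    (h : ∀ U : Finset W, U.card ≤ N → Gd0 F I W (pj r pr (C.res (U : Set W)))) :
    Gd0 F I W (pj r pr C) :=
  hb.g2 W (pj r pr C) hC fun U hU =>
    hb.g1 W W _ _ id (pj_res_hm r pr C (U : Set W) (U : Set W) subset_rfl) (h U hU)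

theorem pj_g3 (hb : Axs (bC F I) N (Gd0 F I)) (r : Rg L) (pr : Kd τ N k → Ty τ N (Fin k))
    [Finite W] (C : Sy (Fin k × Rg L) (Kd τ N k) W) (hC : IsSys (gC L F I a₀) C)
    (hC' : IsSys (bC F I) (pj r pr C)) (U₁ U₂ : Set W) (g₀ : Finset W) (κ₀ : Kd τ N k)
    (h0 : C.gd g₀ κ₀) (h1 : ∀ x, x ∈ g₀ ↔ x ∈ U₁ ∧ x ∈ U₂)
    (h2 : ∀ g κ, C.gd g κ → (∀ x ∈ g, x ∈ U₁) ∨ ∀ x ∈ g, x ∈ U₂)
    (h3 : Gd0 F I W (pj r pr (C.res U₁))) (h4 : Gd0 F I W (pj r pr (C.res U₂))) :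
    Gd0 F I W (pj r pr C) := by
  obtain ⟨g', hg'⟩ : ∃ g' : Finset W, g' = g₀.filter fun x => (C.pt x).2 ≠ r := ⟨_, rfl⟩
  obtain ⟨κ₁, h5⟩ : ∃ κ₁, C.gd g' κ₁ :=
    ⟨_, hC.dn g₀ κ₀ g' h0 (by rw [hg']; exact Finset.filter_subset _ _)⟩
  have h6 : ¬ ∃ v, (v, r) ∈ g'.image C.pt := by
    rintro ⟨v, hv⟩
    obtain ⟨x, hx, hx'⟩ := Finset.mem_image.1 hv
    rw [hg', Finset.mem_filter] at hx
    exact hx.2 (by rw [hx'])
  refine hb.g3 W (pj r pr C) (ot r C U₁) (ot r C U₂) g' (pr κ₁) hC' ⟨_, h5, h6, rfl⟩ ?_ ?_ ?_ ?_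
  · intro x
    rw [hg', Finset.mem_filter, h1]
    unfold ot
    constructor
    · rintro ⟨⟨a, b⟩, c⟩
      exact ⟨⟨a, c⟩, b, c⟩
    · rintro ⟨⟨a, c⟩, b, _⟩
      exact ⟨⟨a, b⟩, c⟩
  · rintro g t ⟨κ, a1, a2, -⟩
    have a3 : ∀ x ∈ g, (C.pt x).2 ≠ r := by
      intro x hx hr
      refine a2 ⟨(C.pt x).1, Finset.mem_image.2 ⟨x, hx, ?_⟩⟩
      rw [← hr]
    rcases h2 g κ a1 with h | h
    · exact Or.inl fun x hx => ⟨h x hx, a3 x hx⟩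
    · exact Or.inr fun x hx => ⟨h x hx, a3 x hx⟩
  · exact hb.g1 W W _ _ id (pj_res_hm r pr C U₁ _ fun x hx => hx.1) h3
  · exact hb.g1 W W _ _ id (pj_res_hm r pr C U₂ _ fun x hx => hx.1) h4

end

theorem pf_AXG (hDZS : Pool.Agent.H53.GM.T_DZS) : Pool.Agent.H53.GM.T_AXG := by
  intro τ N k L F I a₀ _ hP hb
  refine ⟨?_, ?_, ?_⟩
  · intro W W' C C' f hf hG
    exact ⟨fun c => hb.g1 W W' _ _ f (pj_hm _ _ C C' f hf) (hG.1 c),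
      fun d => hb.g1 W W' _ _ f (pj_hm _ _ C C' f hf) (hG.2 d)⟩
  · intro W _ C hC h
    obtain ⟨s1, s2⟩ := hDZS τ N k L F I a₀ W C hP hC
    exact ⟨fun c => pj_g2 hb (some none) (fun κ => κ.1 c) C (s1 c) fun U hU => (h U hU).1 c,
      fun d => pj_g2 hb none (fun κ => κ.2 d) C (s2 d) fun U hU => (h U hU).2 d⟩
  · intro W _ C U₁ U₂ g₀ κ₀ hC h0 h1 h2 h3 h4
    obtain ⟨s1, s2⟩ := hDZS τ N k L F I a₀ W C hP hC
    exact ⟨fun c => pj_g3 hb (some none) (fun κ => κ.1 c) C hC (s1 c) U₁ U₂ g₀ κ₀ h0 h1 h2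
        (h3.1 c) (h4.1 c),
      fun d => pj_g3 hb none (fun κ => κ.2 d) C hC (s2 d) U₁ U₂ g₀ κ₀ h0 h1 h2
        (h3.2 d) (h4.2 d)⟩

end Pool.Agent.H14.GM
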