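import Pool.Agent.H53.GM.Targets

/-!
Module BLW: blow-up of a structure.
-/

set_option autoImplicit false

namespace Pool.Agent.H14.GM

open Pool.Agent.H68.BP Pool.Agent.H58.SF Pool.Agent.H53.GC Pool.Agent.H53.GR Pool.Agent.H53.GM
open Classical

theorem pf_BLW : Pool.Agent.H53.GM.T_BLW := by
  rintro τ N F W J M ⟨j0⟩
  refine ⟨fun h D hD f hf => h D hD (fun v => (f v).1) fun l x hx => hf l x hx, ?_⟩
  intro J' b
  apply Set.Subset.antisymm
  · rintro q ⟨h1, g, hg, hr⟩
    exact ⟨h1, fun v => (g v).1, fun l x hx => hg l x hx, fun v i hi =>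
      congrArg Prod.fst (hr v i hi)⟩
  · rintro ⟨D, ρ⟩ ⟨h1, g, hg, hr⟩
    have h2 : ∀ v, ((ρ v).elim (g v, j0) b).1 = g v := by
      intro v
      cases hv : ρ v with
      | none => rfl
      | some i => exact (hr v i hv).symm
    refine ⟨h1, fun v => (ρ v).elim (g v, j0) b, fun l x hx => ?_, fun v i hi => ?_⟩
    · change M l (fun i => ((ρ (x i)).elim (g (x i), j0) b).1)
      simp only [h2]
      exact hg l x hx
    · have : ρ v = some i := hi
      simp only [this, Option.elim_some]

end Pool.Agent.H14.GM
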