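import Pool.Agent.H53.GM.Targets

/-!
Module TPB: homomorphisms, restrictions and types.
-/

set_option autoImplicit false

namespace Pool.Agent.H14.GM

open Pool.Agent.H68.BP Pool.Agent.H58.SF Pool.Agent.H53.GC Pool.Agent.H53.GR Pool.Agent.H53.GM
open Classical

variable {τ : Sig} {N : ℕ} {W W' J J' : Type}

theorem tp_hom (M : Str τ W) (M' : Str τ W') (a : J → W) (f : W → W') (hf : IsHom M M' f) :
    tp N M a ⊆ tp N M' (fun j => f (a j)) := by
  rintro q ⟨h1, g, hg, hr⟩
  exact ⟨h1, fun v => f (g v), fun l x hx => hf l _ (hg l x hx),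
    fun v i hi => congrArg f (hr v i hi)⟩

theorem RC_map (D : Str τ W) (ρ : W → Option J') (u : J' → J) :
    RC D (fun v => (ρ v).map u) ↔ RC D ρ := by
  unfold RC
  simp only [ne_eq, Option.map_eq_none_iff]

theorem tp_comp (M : Str τ W) (a : J → W) (u : J' → J) :
    tp N M (fun j => a (u j)) = rs u (tp N M a) := by
  ext q
  change (RC q.1 q.2 ∧ ∃ f : Fin N → W, IsHom q.1 M f ∧ ∀ v i, q.2 v = some i → f v = a (u i)) ↔
    (RC q.1 (fun v => (q.2 v).map u) ∧ ∃ f : Fin N → W, IsHom q.1 M f ∧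
      ∀ v i, (q.2 v).map u = some i → f v = a i)
  rw [RC_map]
  refine and_congr_right fun _ => exists_congr fun f => and_congr_right fun _ => ?_
  constructor
  · intro h v i hi
    obtain ⟨j, hj, rfl⟩ := Option.map_eq_some_iff.1 hi
    exact h v j hj
  · intro h v j hj
    exact h v (u j) (by rw [hj]; rfl)

theorem rse_congr (M : Str τ W) (a b : J → W) (e : Finset J) (h : ∀ i ∈ e, a i = b i) :
    rse e (tp N M a) ⊆ rse e (tp N M b) := by
  rintro q ⟨⟨h1, g, hg, hr⟩, h2⟩
  exact ⟨⟨h1, g, hg, fun v i hi => by rw [hr v i hi, h i (h2 v i hi)]⟩, h2⟩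

theorem lift_roots (e : Finset J) (ρ : Fin N → Option J) (h : ∀ v i, ρ v = some i → i ∈ e) :
    ∃ r : Fin N → Option e, (fun v => (r v).map (Subtype.val : e → J)) = ρ := by
  have h1 : ∀ v, ∃ o : Option e, o.map (Subtype.val : e → J) = ρ v := by
    intro v
    cases hv : ρ v with
    | none => exact ⟨none, rfl⟩
    | some i => exact ⟨some ⟨i, h v i hv⟩, rfl⟩
  choose r hr using h1
  exact ⟨r, funext hr⟩

theorem rse_iff (M : Str τ W) (M' : Str τ W') (a : J → W) (b : J → W') (e : Finset J) :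
    rse e (tp N M a) ⊆ rse e (tp N M' b) ↔
      tp N M (fun j : e => a j.1) ⊆ tp N M' (fun j : e => b j.1) := by
  constructor
  · intro h q hq
    rw [tp_comp M a (Subtype.val : e → J)] at hq
    rw [tp_comp M' b (Subtype.val : e → J)]
    refine (h ⟨hq, ?_⟩).1
    intro v i hi
    obtain ⟨j, -, rfl⟩ := Option.map_eq_some_iff.1 hi
    exact j.2
  · rintro h ⟨D, ρ⟩ ⟨hq, h2⟩
    obtain ⟨r, rfl⟩ := lift_roots e ρ h2
    have h3 : (D, r) ∈ tp N M (fun j : e => a j.1) := by
      rw [tp_comp M a (Subtype.val : e → J)]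
      exact hq
    have h4 := h h3
    rw [tp_comp M' b (Subtype.val : e → J)] at h4
    exact ⟨h4, h2⟩

theorem pf_TPB : Pool.Agent.H53.GM.T_TPB := by
  intro τ N W W' J J' M M' a
  refine ⟨fun f hf => tp_hom M M' a f hf, fun u => tp_comp M a u, fun b e h => ?_,
    fun b e => rse_iff M M' a b e⟩
  exact (rse_congr M a b e h).antisymm (rse_congr M b a e fun i hi => (h i hi).symm)

end Pool.Agent.H14.GM
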